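import Mathlib

/-!
# A twisted curve without infinite Crum families of Voronoi regions

The curve is the image of a half parabola under inverse stereographic projection.  It lies on
the unit sphere, no four of its points are coplanar, and among any five points of it the closed
Voronoi regions of the second and the fourth one (in the order along the curve) have at most the
origin in common.
-/

namespace Pool.Agent.Results.MP_5b0acc_co.SphericalTwistedCurve

open Set MeasureTheory

/-- Euclidean three-space. -/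
abbrev E3 := EuclideanSpace ℝ (Fin 3)

/-- A curve: the image of a continuous injective map from a nondegenerate interval. -/
def IsCurve (γ : Set E3) : Prop :=
  ∃ (I : Set ℝ) (c : ℝ → E3), I.OrdConnected ∧ I.Nontrivial ∧ ContinuousOn c I ∧ InjOn c I ∧
    γ = c '' I

/-- No four distinct points lie in a common plane. -/
def IsTwisted (γ : Set E3) : Prop :=
  ∀ a ∈ γ, ∀ b ∈ γ, ∀ c ∈ γ, ∀ d ∈ γ, a ≠ b → a ≠ c → a ≠ d → b ≠ c → b ≠ d → c ≠ d →
    ¬ Coplanar ℝ ({a, b, c, d} : Set E3)

/-- The Voronoi region of `x` with respect to `S`. -/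
def voronoi (S : Set E3) (x : E3) : Set E3 := {y | ∀ z ∈ S \ {x}, dist y x < dist y z}

/-- Area: two-dimensional Hausdorff measure. -/
noncomputable def area (A : Set E3) : ENNReal := Measure.hausdorffMeasure 2 A

/-! ### The curve -/

/-- The common denominator. -/
noncomputable def den (t : ℝ) : ℝ := t ^ 4 + t ^ 2 + 1

lemma den_pos (t : ℝ) : 0 < den t := by unfold den; positivity

/-- The curve. -/
noncomputable def X (t : ℝ) : E3 :=
  !₂[2 * t / den t, 2 * t ^ 2 / den t, (t ^ 4 + t ^ 2 - 1) / den t]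

/-- Plane functional along the curve. -/
lemma inner_X (n : E3) (t : ℝ) : (inner ℝ n (X t) : ℝ) * den t
    = n 0 * (2 * t) + n 1 * (2 * t ^ 2) + n 2 * (t ^ 4 + t ^ 2 - 1) := by
  have h := (den_pos t).ne'
  simp only [PiLp.inner_apply, Fin.sum_univ_three, X]
  simp
  field_simp

lemma norm_X (t : ℝ) : ‖X t‖ ^ 2 = 1 := by
  have h := (den_pos t).ne'
  rw [EuclideanSpace.real_norm_sq_eq, Fin.sum_univ_three]
  simp [X]
  field_simp
  unfold den
  ring

/-- Factorisation of a quartic without cubic term with two known zeros. -/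
lemma factor (A B C D a b : ℝ) (hab : a ≠ b) (ha : A * a ^ 4 + B * a ^ 2 + C * a + D = 0)
    (hb : A * b ^ 4 + B * b ^ 2 + C * b + D = 0) (t : ℝ) :
    A * t ^ 4 + B * t ^ 2 + C * t + D
      = (t - a) * (t - b) * (A * t ^ 2 + A * (a + b) * t + (B + A * (a ^ 2 + a * b + b ^ 2))) := by
  have h1 : (a - b) * (A * t ^ 4 + B * t ^ 2 + C * t + D)
      = (a - b) * ((t - a) * (t - b)
          * (A * t ^ 2 + A * (a + b) * t + (B + A * (a ^ 2 + a * b + b ^ 2))))
        + (A * a ^ 4 + B * a ^ 2 + C * a + D) * (t - b)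
        - (A * b ^ 4 + B * b ^ 2 + C * b + D) * (t - a) := by ring
  rw [ha, hb] at h1
  have h2 : (a - b) ≠ 0 := sub_ne_zero.mpr hab
  apply mul_left_cancel₀ h2
  linarith

/-- A quartic without cubic term with four positive zeros vanishes. -/
lemma four_zeros (A B C D a b c d : ℝ) (ha : 0 < a) (hb : 0 < b) (hc : 0 < c) (hd : 0 < d)
    (hab : a ≠ b) (hac : a ≠ c) (had : a ≠ d) (hbc : b ≠ c) (hbd : b ≠ d) (hcd : c ≠ d)
    (h1 : A * a ^ 4 + B * a ^ 2 + C * a + D = 0) (h2 : A * b ^ 4 + B * b ^ 2 + C * b + D = 0)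
    (h3 : A * c ^ 4 + B * c ^ 2 + C * c + D = 0) (h4 : A * d ^ 4 + B * d ^ 2 + C * d + D = 0) :
    A = 0 ∧ B = 0 ∧ C = 0 ∧ D = 0 := by
  have hf := factor A B C D a b hab h1 h2
  have hc' := hf c
  rw [h3] at hc'
  have hd' := hf d
  rw [h4] at hd'
  have n1 : (c - a) * (c - b) ≠ 0 := mul_ne_zero (sub_ne_zero.mpr hac.symm)
    (sub_ne_zero.mpr hbc.symm)
  have n2 : (d - a) * (d - b) ≠ 0 := mul_ne_zero (sub_ne_zero.mpr had.symm)
    (sub_ne_zero.mpr hbd.symm)
  have q1 : A * c ^ 2 + A * (a + b) * c + (B + A * (a ^ 2 + a * b + b ^ 2)) = 0 :=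
    (mul_eq_zero.mp hc'.symm).resolve_left n1
  have q2 : A * d ^ 2 + A * (a + b) * d + (B + A * (a ^ 2 + a * b + b ^ 2)) = 0 :=
    (mul_eq_zero.mp hd'.symm).resolve_left n2
  have q3 : A * ((c - d) * (c + d + a + b)) = 0 := by linear_combination q1 - q2
  have hA : A = 0 := by
    rcases mul_eq_zero.mp q3 with h | h
    · exact h
    · exfalso
      rcases mul_eq_zero.mp h with h' | h'
      · exact hcd (sub_eq_zero.mp h')
      · linarith
  subst hA
  have hB : B = 0 := by linarith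
  subst hB
  have hC : C * (a - b) = 0 := by linarith
  have hC0 : C = 0 := (mul_eq_zero.mp hC).resolve_right (sub_ne_zero.mpr hab)
  subst hC0
  refine ⟨rfl, rfl, rfl, by linarith⟩

/-- The sign argument: value zero at the second and fourth, nonpositive at the other three. -/
lemma sign_arg (A B C D a b c d e : ℝ) (ha : 0 < a) (hab : a < b) (hbc : b < c) (hcd : c < d)
    (hde : d < e)
    (hb : A * b ^ 4 + B * b ^ 2 + C * b + D = 0) (hd : A * d ^ 4 + B * d ^ 2 + C * d + D = 0)
    (h1 : A * a ^ 4 + B * a ^ 2 + C * a + D ≤ 0) (h3 : A * c ^ 4 + B * c ^ 2 + C * c + D ≤ 0)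
    (h5 : A * e ^ 4 + B * e ^ 2 + C * e + D ≤ 0) :
    A = 0 ∧ B = 0 ∧ C = 0 ∧ D = 0 := by
  have hf := factor A B C D b d (by linarith [hbc, hcd] : b < d).ne hb hd
  rw [hf a] at h1
  rw [hf c] at h3
  rw [hf e] at h5
  set E := B + A * (b ^ 2 + b * d + d ^ 2) with hE
  have p1 : 0 < (a - b) * (a - d) := mul_pos_of_neg_of_neg (by linarith) (by linarith)
  have p3 : (c - b) * (c - d) < 0 := mul_neg_of_pos_of_neg (by linarith) (by linarith)
  have p5 : 0 < (e - b) * (e - d) := mul_pos (by linarith) (by linarith)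
  have q1 : A * a ^ 2 + A * (b + d) * a + E ≤ 0 := by
    by_contra hcon
    push Not at hcon
    linarith [mul_pos p1 hcon]
  have q3 : 0 ≤ A * c ^ 2 + A * (b + d) * c + E := by
    by_contra hcon
    push Not at hcon
    linarith [mul_pos_of_neg_of_neg p3 hcon]
  have q5 : A * e ^ 2 + A * (b + d) * e + E ≤ 0 := by
    by_contra hcon
    push Not at hcon
    linarith [mul_pos p5 hcon]
  have r1 : 0 ≤ A * ((c - a) * (c + a + b + d)) := by linarith [q1, q3]
  have r2 : 0 ≤ A * ((c - e) * (c + e + b + d)) := by linarith [q3, q5]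
  have s1 : 0 < (c - a) * (c + a + b + d) := mul_pos (by linarith) (by linarith)
  have s2 : (c - e) * (c + e + b + d) < 0 := mul_neg_of_neg_of_pos (by linarith) (by linarith)
  have hA : A = 0 := by
    rcases lt_trichotomy A 0 with h | h | h
    · linarith [mul_neg_of_neg_of_pos h s1]
    · exact h
    · linarith [mul_neg_of_pos_of_neg h s2]
  subst hA
  have hE0 : E = 0 := by linarith
  have hB : B = 0 := by rw [hE] at hE0; linarith
  subst hB
  have hC : C * (b - d) = 0 := by linarith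
  have hC0 : C = 0 := (mul_eq_zero.mp hC).resolve_right (by
    have : b < d := by linarith
    linarith)
  subst hC0
  refine ⟨rfl, rfl, rfl, by linarith⟩

lemma poly_eq (n : E3) (M t : ℝ) : ((inner ℝ n (X t) : ℝ) - M) * den t
    = (n 2 - M) * t ^ 4 + (2 * n 1 + n 2 - M) * t ^ 2 + (2 * n 0) * t + (-(n 2) - M) := by
  rw [sub_mul, inner_X]
  unfold den
  ring

lemma zero_of_coeffs (n : E3) (M : ℝ) (h : (n 2 - M) = 0 ∧ (2 * n 1 + n 2 - M) = 0 ∧
    (2 * n 0) = 0 ∧ (-(n 2) - M) = 0) : n = 0 := by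
  obtain ⟨h1, h2, h3, h4⟩ := h
  ext i
  fin_cases i
  · simp; linarith
  · simp; linarith
  · simp; linarith

lemma X_injOn : InjOn X (Ioi 0) := by
  intro s hs t ht h
  have hs' : 0 < s := hs
  have ht' : 0 < t := ht
  have h0 : (X s) 0 = (X t) 0 := by rw [h]
  have h1 : (X s) 1 = (X t) 1 := by rw [h]
  simp [X] at h0 h1
  have e1 := (den_pos s).ne'
  have e2 := (den_pos t).ne'
  have p1 := den_pos s
  have p2 := den_pos t
  have h2 : (2 * s ^ 2 / den s) * (2 * t / den t) = (2 * t ^ 2 / den t) * (2 * s / den s) := by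
    rw [h0, h1]
  field_simp at h2
  nlinarith [mul_pos hs' ht']

lemma X_continuous : Continuous X := by
  have h : ∀ t, den t ≠ 0 := fun t => (den_pos t).ne'
  have hd : Continuous den := by unfold den; fun_prop
  unfold X
  refine (PiLp.continuous_toLp 2 _).comp ?_
  refine continuous_pi ?_
  intro i
  fin_cases i
  · exact (continuous_const.mul continuous_id).div hd h
  · exact (by fun_prop : Continuous fun t : ℝ => 2 * t ^ 2).div hd h
  · exact (by fun_prop : Continuous fun t : ℝ => t ^ 4 + t ^ 2 - 1).div hd h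

lemma exists_normal (s : Set E3) (h : Coplanar ℝ s) :
    ∃ n : E3, n ≠ 0 ∧ ∀ x ∈ s, ∀ y ∈ s, (inner ℝ n x : ℝ) = inner ℝ n y := by
  have h1 : Module.finrank ℝ (vectorSpan ℝ s) ≤ 2 := by
    have := h
    rw [Coplanar] at this
    have h2 : (Module.finrank ℝ (vectorSpan ℝ s) : Cardinal) ≤ 2 := by
      rw [Module.finrank_eq_rank]
      exact this
    exact_mod_cast h2
  have h2 : (vectorSpan ℝ s)ᗮ ≠ ⊥ := by
    intro hbot
    rw [Submodule.orthogonal_eq_bot_iff] at hbot
    rw [hbot, finrank_top] at h1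
    simp at h1
  obtain ⟨n, hn, hn0⟩ := Submodule.exists_mem_ne_zero_of_ne_bot h2
  refine ⟨n, hn0, ?_⟩
  intro x hx y hy
  rw [Submodule.mem_orthogonal'] at hn
  have h3 := hn (x - y) (by
    have := vsub_mem_vectorSpan ℝ hx hy
    simpa using this)
  rw [inner_sub_right] at h3
  linarith

lemma twisted : IsTwisted (X '' Ioi 0) := by
  rintro _ ⟨a, ha, rfl⟩ _ ⟨b, hb, rfl⟩ _ ⟨c, hc, rfl⟩ _ ⟨d, hd, rfl⟩ hab hac had hbc hbd hcd hcop
  obtain ⟨n, hn0, hn⟩ := exists_normal _ hcop
  set M : ℝ := inner ℝ n (X a) with hM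
  have e1 : (inner ℝ n (X a) : ℝ) - M = 0 := by rw [hM]; ring
  have e2 : (inner ℝ n (X b) : ℝ) - M = 0 := by
    rw [hM, hn (X b) (by simp) (X a) (by simp)]; ring
  have e3 : (inner ℝ n (X c) : ℝ) - M = 0 := by
    rw [hM, hn (X c) (by simp) (X a) (by simp)]; ring
  have e4 : (inner ℝ n (X d) : ℝ) - M = 0 := by
    rw [hM, hn (X d) (by simp) (X a) (by simp)]; ring
  have f1 := poly_eq n M a
  have f2 := poly_eq n M b
  have f3 := poly_eq n M c
  have f4 := poly_eq n M d
  rw [e1, zero_mul] at f1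
  rw [e2, zero_mul] at f2
  rw [e3, zero_mul] at f3
  rw [e4, zero_mul] at f4
  apply hn0
  apply zero_of_coeffs n M
  exact four_zeros _ _ _ _ a b c d ha hb hc hd (fun h => hab (by rw [h]))
    (fun h => hac (by rw [h])) (fun h => had (by rw [h])) (fun h => hbc (by rw [h]))
    (fun h => hbd (by rw [h])) (fun h => hcd (by rw [h])) f1.symm f2.symm f3.symm f4.symm

/-- Points of the closed Voronoi region maximise the scalar product. -/
lemma inner_le_of_mem (S : Set E3) (hS : S ⊆ X '' Ioi 0) (x y z : E3) (hx : x ∈ S) (hz : z ∈ S)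
    (hy : y ∈ closure (voronoi S x)) : (inner ℝ y z : ℝ) ≤ inner ℝ y x := by
  have h1 : dist y x ≤ dist y z := by
    by_cases hzx : z = x
    · rw [hzx]
    · have hsub : voronoi S x ⊆ {w | dist w x ≤ dist w z} := by
        intro w hw
        exact (hw z ⟨hz, hzx⟩).le
      have hcl : IsClosed {w : E3 | dist w x ≤ dist w z} :=
        isClosed_le (by fun_prop) (by fun_prop)
      exact (closure_minimal hsub hcl) hy
  have hnx : ‖x‖ ^ 2 = 1 := by
    obtain ⟨t, _, rfl⟩ := hS hx
    exact norm_X t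
  have hnz : ‖z‖ ^ 2 = 1 := by
    obtain ⟨t, _, rfl⟩ := hS hz
    exact norm_X t
  rw [dist_eq_norm, dist_eq_norm] at h1
  have h2 : ‖y - x‖ ^ 2 ≤ ‖y - z‖ ^ 2 := pow_le_pow_left₀ (norm_nonneg _) h1 2
  rw [norm_sub_sq_real, norm_sub_sq_real] at h2
  linarith

/-- **A twisted curve such that every infinite subset `S` contains two distinct points whose closed
Voronoi regions meet in a set of zero area.** -/
theorem result : ∃ γ : Set E3, IsCurve γ ∧ IsTwisted γ ∧
    ∀ S : Set E3, S ⊆ γ → S.Infinite → ∃ x ∈ S, ∃ x' ∈ S, x ≠ x' ∧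
      area (closure (voronoi S x) ∩ closure (voronoi S x')) = 0 := by
  refine ⟨X '' Ioi 0, ⟨Ioi 0, X, ordConnected_Ioi, ⟨1, by simp, 2, by simp, by norm_num⟩,
    X_continuous.continuousOn, X_injOn, rfl⟩, twisted, ?_⟩
  intro S hS hinf
  -- parameters
  set T : Set ℝ := {t | 0 < t ∧ X t ∈ S} with hT
  have hST : S = X '' T := by
    ext x
    constructor
    · intro hx
      obtain ⟨t, ht, rfl⟩ := hS hx
      exact ⟨t, ⟨ht, hx⟩, rfl⟩
    · rintro ⟨t, ⟨_, ht⟩, rfl⟩
      exact ht
  have hTinf : T.Infinite := by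
    intro hfin
    apply hinf
    rw [hST]
    exact hfin.image X
  obtain ⟨U, hUT, hU⟩ := hTinf.exists_subset_card_eq 5
  set o := U.orderEmbOfFin hU with ho
  have hmem : ∀ i, o i ∈ T := fun i => hUT (U.orderEmbOfFin_mem hU i)
  have h01 : o 0 < o 1 := o.lt_iff_lt.mpr (by decide)
  have h12 : o 1 < o 2 := o.lt_iff_lt.mpr (by decide)
  have h23 : o 2 < o 3 := o.lt_iff_lt.mpr (by decide)
  have h34 : o 3 < o 4 := o.lt_iff_lt.mpr (by decide)
  have hpos : ∀ i, 0 < o i := fun i => (hmem i).1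
  have hS' : ∀ i, X (o i) ∈ S := fun i => (hmem i).2
  refine ⟨X (o 1), hS' 1, X (o 3), hS' 3, ?_, ?_⟩
  · intro h
    have := X_injOn (hpos 1) (hpos 3) h
    linarith
  · have hsub : closure (voronoi S (X (o 1))) ∩ closure (voronoi S (X (o 3))) ⊆ {0} := by
      rintro y ⟨hy1, hy3⟩
      rw [mem_singleton_iff]
      have k1 := fun i => inner_le_of_mem S hS (X (o 1)) y (X (o i)) (hS' 1) (hS' i) hy1
      have k3 := fun i => inner_le_of_mem S hS (X (o 3)) y (X (o i)) (hS' 3) (hS' i) hy3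
      set M : ℝ := inner ℝ y (X (o 1)) with hM
      have e3 : (inner ℝ y (X (o 3)) : ℝ) = M := le_antisymm (k1 3) (k3 1)
      have f : ∀ i, (y 2 - M) * (o i) ^ 4 + (2 * y 1 + y 2 - M) * (o i) ^ 2 + (2 * y 0) * (o i)
          + (-(y 2) - M) ≤ 0 := by
        intro i
        rw [← poly_eq y M (o i)]
        exact mul_nonpos_of_nonpos_of_nonneg (by linarith [k1 i]) (den_pos _).le
      have f1 : (y 2 - M) * (o 1) ^ 4 + (2 * y 1 + y 2 - M) * (o 1) ^ 2 + (2 * y 0) * (o 1)
          + (-(y 2) - M) = 0 := by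
        rw [← poly_eq y M (o 1), ← hM]; ring
      have f3 : (y 2 - M) * (o 3) ^ 4 + (2 * y 1 + y 2 - M) * (o 3) ^ 2 + (2 * y 0) * (o 3)
          + (-(y 2) - M) = 0 := by
        rw [← poly_eq y M (o 3), e3]; ring
      apply zero_of_coeffs y M
      exact sign_arg _ _ _ _ (o 0) (o 1) (o 2) (o 3) (o 4) (hpos 0) h01 h12 h23 h34 f1 f3
        (f 0) (f 2) (f 4)
    have h0 : area ({0} : Set E3) = 0 := by
      unfold area
      have := Measure.nullSingletonClass_hausdorff E3 (d := 2) (by norm_num)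
      exact measure_singleton 0
    exact measure_mono_null hsub h0

end Pool.Agent.Results.MP_5b0acc_co.SphericalTwistedCurve
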